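import Mathlib

/-!
# Locally minimal abelian groups: definitions and auxiliary facts
-/

namespace LocMin

open Topology Filter

/-- An abelian topological group is locally minimal if it has a neighbourhood `V` of `0` such that
every Hausdorff group topology `σ` coarser than the given one, in which `V` is a neighbourhood of
`0`, is the given one. -/
def LocallyMinimal (G : Type*) [AddCommGroup G] [τ : TopologicalSpace G] : Prop :=
  ∃ V ∈ 𝓝 (0 : G), ∀ σ : TopologicalSpace G, @IsTopologicalAddGroup G σ _ → @T2Space G σ →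
    τ ≤ σ → V ∈ @nhds G σ 0 → σ = τ

/-- comparison of group topologies at `0` -/
theorem le_of_nhds {G : Type*} [AddCommGroup G] {τ σ : TopologicalSpace G}
    (hτ : @IsTopologicalAddGroup G τ _) (hσ : @IsTopologicalAddGroup G σ _)
    (h : @nhds G τ 0 ≤ @nhds G σ 0) : τ ≤ σ := by
  rw [le_iff_nhds]
  intro x
  have e1 : @nhds G τ x = map (fun y => x + y) (@nhds G τ 0) := by
    let := τ
    exact (map_add_left_nhds_zero x).symm
  have e2 : @nhds G σ x = map (fun y => x + y) (@nhds G σ 0) := by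
    let := σ
    exact (map_add_left_nhds_zero x).symm
  rw [e1, e2]
  exact map_mono h

theorem eq_of_nhds {G : Type*} [AddCommGroup G] {τ σ : TopologicalSpace G}
    (hτ : @IsTopologicalAddGroup G τ _) (hσ : @IsTopologicalAddGroup G σ _)
    (h : @nhds G τ 0 = @nhds G σ 0) : τ = σ :=
  le_antisymm (le_of_nhds hτ hσ h.le) (le_of_nhds hσ hτ h.ge)

/-- Criterion: it is enough to test ultrafilters. -/
theorem eq_of_ultrafilter {G : Type*} [AddCommGroup G] {τ σ : TopologicalSpace G}
    (hτ : @IsTopologicalAddGroup G τ _) (hσ : @IsTopologicalAddGroup G σ _) (hle : τ ≤ σ)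
    (h : ∀ F : Ultrafilter G, ↑F ≤ @nhds G σ 0 → ↑F ≤ @nhds G τ 0) : σ = τ := by
  refine le_antisymm (le_of_nhds hσ hτ ?_) hle
  rw [le_iff_ultrafilter]
  exact h

section uniform

variable {G : Type*} [AddCommGroup G] [UniformSpace G] [IsUniformAddGroup G]

/-- Cauchy criterion in a group -/
theorem cauchy_of_sub {F : Filter G} [F.NeBot]
    (h : ∀ O ∈ 𝓝 (0 : G), ∃ A ∈ F, ∀ x ∈ A, ∀ y ∈ A, y - x ∈ O) : Cauchy F := by
  rw [cauchy_iff]
  refine ⟨inferInstance, ?_⟩
  intro s hs
  rw [uniformity_eq_comap_nhds_zero G] at hs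
  obtain ⟨O, hO, hOs⟩ := hs
  obtain ⟨A, hA, h2⟩ := h O hO
  exact ⟨A, hA, fun p hp => hOs (h2 p.1 hp.1 p.2 hp.2)⟩

end uniform

end LocMin
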