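import Mathlib
import Pool.Agent.Lib.MP_27feec_al.Defs

/-!
# Nearly additive maps into a compact subgroup
-/

namespace LocMin

open Topology Filter

variable {G B : Type*} [AddCommGroup G] [TopologicalSpace G] [IsTopologicalAddGroup G] [T2Space G]
  [AddCommGroup B] [TopologicalSpace B] [T2Space B]

/-- The set of nearly additive maps (up to `m`) with values in `K ∩ C`, whose images in `B` are
small, and whose value at `1` is not in `U'`. -/
def NearSet (K C : Set G) (b : G →+ B) (U' : Set G) (m : ℕ) (U : Set G) (D : Set B) :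
    Set (ℕ → G) :=
  {κ | (∀ i, κ i ∈ K) ∧ (∀ i ≤ m, κ i ∈ C) ∧ (∀ i j, i + j ≤ m → κ (i + j) - κ i - κ j ∈ U) ∧
    (∀ i ≤ m, b (κ i) ∈ D) ∧ κ 1 ∉ U'}

theorem near_add {K C : Set G} (hK : IsCompact K) (hC : IsClosed C) (b : G →+ B)
    (hb : Continuous b) (hN : ∀ x ∈ K, b x = 0 → (∀ j : ℕ, j • x ∈ C) → x = 0) {U' : Set G}
    (hU' : IsOpen U') (h0 : (0 : G) ∈ U') :
    ∃ m : ℕ, ∃ U ∈ 𝓝 (0 : G), ∃ D ∈ 𝓝 (0 : B), NearSet K C b U' m U D = ∅ := by
  by_contra hcon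
  push Not at hcon
  let ι := {p : ℕ × Set G × Set B // p.2.1 ∈ 𝓝 (0 : G) ∧ p.2.2 ∈ 𝓝 (0 : B)}
  let A : ι → Set (ℕ → G) := fun p => NearSet K C b U' p.1.1 p.1.2.1 p.1.2.2
  have hA : ∀ p, (A p).Nonempty := fun p => hcon p.1.1 p.1.2.1 p.2.1 p.1.2.2 p.2.2
  have : Nonempty ι := ⟨⟨(0, Set.univ, Set.univ), univ_mem, univ_mem⟩⟩
  have hdir : Directed (· ≥ ·) fun p : ι => 𝓟 (A p) := by
    intro p q
    refine ⟨⟨(max p.1.1 q.1.1, p.1.2.1 ∩ q.1.2.1, p.1.2.2 ∩ q.1.2.2),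
      inter_mem p.2.1 q.2.1, inter_mem p.2.2 q.2.2⟩, ?_, ?_⟩
    · simp only [ge_iff_le, principal_mono]
      rintro κ ⟨h1, h2, h3, h4, h5⟩
      exact ⟨h1, fun i hi => h2 i (le_trans hi (le_max_left _ _)),
        fun i j hij => (h3 i j (le_trans hij (le_max_left _ _))).1,
        fun i hi => (h4 i (le_trans hi (le_max_left _ _))).1, h5⟩
    · simp only [ge_iff_le, principal_mono]
      rintro κ ⟨h1, h2, h3, h4, h5⟩
      exact ⟨h1, fun i hi => h2 i (le_trans hi (le_max_right _ _)),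
        fun i j hij => (h3 i j (le_trans hij (le_max_right _ _))).2,
        fun i hi => (h4 i (le_trans hi (le_max_right _ _))).2, h5⟩
  have hne : (⨅ p, 𝓟 (A p)).NeBot :=
    iInf_neBot_of_directed hdir fun p => principal_neBot_iff.2 (hA p)
  have hcomp : IsCompact (Set.univ.pi fun _ : ℕ => K) := isCompact_univ_pi fun _ => hK
  have hle : (⨅ p, 𝓟 (A p)) ≤ 𝓟 (Set.univ.pi fun _ : ℕ => K) := by
    refine le_trans (iInf_le _ (Classical.arbitrary ι)) ?_
    rw [principal_mono]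
    rintro κ ⟨h1, -⟩ i -
    exact h1 i
  obtain ⟨c, hc, hcl⟩ := hcomp hle
  let M : Filter (ℕ → G) := 𝓝 c ⊓ ⨅ p, 𝓟 (A p)
  have hM : M.NeBot := hcl
  have hM1 : ∀ i, Tendsto (fun κ : ℕ → G => κ i) M (𝓝 (c i)) := fun i =>
    (continuous_apply i).continuousAt.tendsto.mono_left inf_le_left
  have hM2 : ∀ p : ι, A p ∈ M := fun p =>
    mem_inf_of_right (mem_iInf_of_mem p (mem_principal_self _))
  have hcC : ∀ i, c i ∈ C := by
    intro i
    refine hC.mem_of_tendsto (hM1 i) ?_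
    filter_upwards [hM2 ⟨(i, Set.univ, Set.univ), univ_mem, univ_mem⟩] with κ hκ
    exact hκ.2.1 i le_rfl
  have hadd : ∀ i j, c (i + j) = c i + c j := by
    intro i j
    have h1 : Tendsto (fun κ : ℕ → G => κ (i + j) - κ i - κ j) M (𝓝 (c (i + j) - c i - c j)) :=
      ((hM1 _).sub (hM1 _)).sub (hM1 _)
    have h2 : Tendsto (fun κ : ℕ → G => κ (i + j) - κ i - κ j) M (𝓝 0) := by
      intro U hU
      rw [mem_map]
      filter_upwards [hM2 ⟨(i + j, U, Set.univ), hU, univ_mem⟩] with κ hκ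
      exact hκ.2.2.1 i j le_rfl
    have h3 := tendsto_nhds_unique h1 h2
    rw [sub_sub, sub_eq_zero] at h3
    exact h3
  have hb0 : b (c 1) = 0 := by
    have h1 : Tendsto (fun κ : ℕ → G => b (κ 1)) M (𝓝 (b (c 1))) :=
      (hb.tendsto _).comp (hM1 1)
    have h2 : Tendsto (fun κ : ℕ → G => b (κ 1)) M (𝓝 0) := by
      intro D hD
      rw [mem_map]
      filter_upwards [hM2 ⟨(1, Set.univ, D), univ_mem, hD⟩] with κ hκ
      exact hκ.2.2.2.1 1 le_rfl
    exact tendsto_nhds_unique h1 h2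
  have hmul : ∀ j : ℕ, c j = j • c 1 := by
    intro j
    induction j with
    | zero =>
      have := hadd 0 0
      rw [add_zero] at this
      rw [zero_smul]
      exact (left_eq_add.1 this)
    | succ j ih => rw [hadd, ih, add_smul, one_smul]
  have h1 : c 1 = 0 := hN (c 1) (hc 1 (Set.mem_univ _)) hb0 fun j => by rw [← hmul]; exact hcC j
  have h2 : c 1 ∉ U' := by
    have : c 1 ∈ U'ᶜ := by
      refine (isClosed_compl_iff.2 hU').mem_of_tendsto (hM1 1) ?_
      filter_upwards [hM2 ⟨(0, Set.univ, Set.univ), univ_mem, univ_mem⟩] with κ hκ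
      exact hκ.2.2.2.2
    exact this
  rw [h1] at h2
  exact h2 h0

end LocMin
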