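import Mathlib
import Pool.Agent.Lib.MP_27feec_al.Near

/-!
# Group topologies from families of sets; the key step
-/

namespace LocMin

open Topology Filter

/-- A family of sets defines a group topology. -/
theorem exists_topology {G ι : Type*} [AddCommGroup G] [Nonempty ι] (w : ι → Set G)
    (h0 : ∀ i, (0 : G) ∈ w i) (hinter : ∀ i j, ∃ k, w k ⊆ w i ∩ w j)
    (hadd : ∀ i, ∃ j, ∀ x ∈ w j, ∀ y ∈ w j, x + y ∈ w i)
    (hneg : ∀ i, ∃ j, ∀ x ∈ w j, -x ∈ w i) :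
    ∃ σ : TopologicalSpace G, @IsTopologicalAddGroup G σ _ ∧
      (@nhds G σ 0).HasBasis (fun _ : ι => True) w := by
  let Bs : AddGroupFilterBasis G := addGroupFilterBasisOfComm (Set.range w)
    (Set.range_nonempty w)
    (by
      rintro _ _ ⟨i, rfl⟩ ⟨j, rfl⟩
      obtain ⟨k, hk⟩ := hinter i j
      exact ⟨w k, ⟨k, rfl⟩, hk⟩)
    (by rintro _ ⟨i, rfl⟩; exact h0 i)
    (by
      rintro _ ⟨i, rfl⟩
      obtain ⟨j, hj⟩ := hadd i
      refine ⟨w j, ⟨j, rfl⟩, ?_⟩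
      rintro _ ⟨x, hx, y, hy, rfl⟩
      exact hj x hx y hy)
    (by
      rintro _ ⟨i, rfl⟩
      obtain ⟨j, hj⟩ := hneg i
      exact ⟨w j, ⟨j, rfl⟩, fun x hx => hj x hx⟩)
  refine ⟨Bs.topology, Bs.isTopologicalAddGroup, ?_⟩
  have h1 := Bs.nhds_zero_hasBasis
  constructor
  intro t
  rw [h1.mem_iff]
  constructor
  · rintro ⟨_, ⟨i, rfl⟩, hi⟩
    exact ⟨i, trivial, hi⟩
  · rintro ⟨i, -, hi⟩
    exact ⟨w i, ⟨i, rfl⟩, hi⟩

variable {G Y B : Type*} [AddCommGroup G] [AddCommGroup Y] [AddCommGroup B]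

/-- the basic sets -/
def W (V : Set G) (b : G →+ B) (p : G →+ Y) (S : Set Y) (k : ℕ) (D : Set B) : Set G :=
  {x | ∀ j ≤ k, j • x ∈ V ∧ b (j • x) ∈ D ∧ p (j • x) ∈ S}

/-- the key step -/
theorem key {V2 V3 C U' U : Set G} {D0 D1 : Set B} {m : ℕ} (b : G →+ B) (p : G →+ Y)
    (hm : NearSet (p.ker : Set G) C b U' m U D1 = ∅) (hm1 : 1 ≤ m)
    (R1 : ∀ x ∈ V2, ∀ y ∈ V2, ∀ v ∈ V3, x + y - v ∈ C)
    (R2 : ∀ v ∈ V3, ∀ u ∈ U', v + u ∈ V2)
    (R3 : ∀ a ∈ V3, ∀ c ∈ V3, ∀ d ∈ V3, a + c - d ∈ U)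
    (R4 : ∀ d ∈ D0, ∀ v ∈ V3, d - b v ∈ D1)
    {k : ℕ} {x y : G} (hx : ∀ i ≤ m * k, i • x ∈ V2) (hy : ∀ i ≤ m * k, i • y ∈ V2)
    (hb : ∀ i ≤ m * k, b (i • (x + y)) ∈ D0)
    (hp : ∀ i ≤ m * k, p (i • (x + y)) ∈ p '' V3) :
    ∀ j ≤ k, j • (x + y) ∈ V2 := by
  intro j hj
  have hex : ∀ i : ℕ, ∃ v : G, i ≤ m * k → v ∈ V3 ∧ i • (x + y) - v ∈ p.ker := by
    intro i
    by_cases hi : i ≤ m * k
    · obtain ⟨v, hv, hv'⟩ := hp i hi
      refine ⟨v, fun _ => ⟨hv, ?_⟩⟩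
      rw [AddMonoidHom.mem_ker, map_sub, hv', sub_self]
    · exact ⟨0, fun h => absurd h hi⟩
  choose v hv using hex
  let κ : ℕ → G := fun i => if i ≤ m * k then i • (x + y) - v i else 0
  have hκ : ∀ i ≤ m * k, κ i = i • (x + y) - v i := fun i hi => if_pos hi
  have hle : ∀ i, i ≤ m → i * j ≤ m * k := fun i hi => Nat.mul_le_mul hi hj
  have hmem : κ j ∈ U' := by
    by_contra hcon
    have : (fun i => κ (i * j)) ∈ NearSet (p.ker : Set G) C b U' m U D1 := by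
      refine ⟨?_, ?_, ?_, ?_, ?_⟩
      · intro i
        by_cases hi : i * j ≤ m * k
        · simp only [hκ _ hi]
          exact (hv _ hi).2
        · simp only [κ, if_neg hi]
          exact p.ker.zero_mem
      · intro i hi
        have h1 := hle i hi
        simp only [hκ _ h1, smul_add]
        exact R1 _ (hx _ h1) _ (hy _ h1) _ (hv _ h1).1
      · intro i i' hii
        have h1 := hle _ hii
        have h2 : i * j ≤ m * k := hle i (by omega)
        have h3 : i' * j ≤ m * k := hle i' (by omega)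
        simp only [hκ _ h1, hκ _ h2, hκ _ h3]
        have e : ((i + i') * j) • (x + y) - v ((i + i') * j) - ((i * j) • (x + y) - v (i * j)) -
            ((i' * j) • (x + y) - v (i' * j)) = v (i * j) + v (i' * j) - v ((i + i') * j) := by
          rw [add_mul, add_smul]
          abel
        rw [e]
        exact R3 _ (hv _ h2).1 _ (hv _ h3).1 _ (hv _ h1).1
      · intro i hi
        have h1 := hle i hi
        simp only [hκ _ h1, map_sub]
        exact R4 _ (hb _ h1) _ (hv _ h1).1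
      · simpa using hcon
    rw [hm] at this
    exact this
  have hj' : j ≤ m * k := le_trans hj (Nat.le_mul_of_pos_left k hm1)
  have e : j • (x + y) = v j + κ j := by rw [hκ j hj']; abel
  rw [e]
  exact R2 _ (hv j hj').1 _ hmem

end LocMin
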