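import Mathlib
import Pool.Agent.Lib.MP_27feec_al.Topo

/-!
# Quotients of complete locally minimal abelian groups
-/

namespace LocMin

open Topology Filter

/-- symmetric neighbourhood `N` of `0` with `N + N + N + N ⊆ O` -/
theorem exists_four {G : Type*} [AddCommGroup G] [TopologicalSpace G] [IsTopologicalAddGroup G]
    {O : Set G} (hO : O ∈ 𝓝 (0 : G)) :
    ∃ N ∈ 𝓝 (0 : G), (∀ x ∈ N, -x ∈ N) ∧ (∀ a ∈ N, ∀ c ∈ N, ∀ d ∈ N, ∀ e ∈ N,
      a + c + d + e ∈ O) := by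
  obtain ⟨N, hN, h1, h2, h3⟩ : ∃ N ∈ 𝓝 (0 : G), (0 : G) ∈ N ∧ (∀ x ∈ N, -x ∈ N) ∧
      (∀ a ∈ N, ∀ c ∈ N, ∀ d ∈ N, ∀ e ∈ N, a + c + d + e ∈ O) := by
    have hc : Tendsto (fun p : G × G × G × G => p.1 + p.2.1 + p.2.2.1 + p.2.2.2)
        (𝓝 (0, 0, 0, 0)) (𝓝 0) := by
      have h : Continuous fun p : G × G × G × G => p.1 + p.2.1 + p.2.2.1 + p.2.2.2 := by
        fun_prop
      have := h.tendsto (0, 0, 0, 0)
      simpa using this
    have h4 := hc hO
    rw [nhds_prod_eq, nhds_prod_eq, nhds_prod_eq] at h4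
    rw [mem_map, mem_prod_iff] at h4
    obtain ⟨A, hA, X, hX, h5⟩ := h4
    rw [mem_prod_iff] at hX
    obtain ⟨A2, hA2, X2, hX2, h6⟩ := hX
    rw [mem_prod_iff] at hX2
    obtain ⟨A3, hA3, A4, hA4, h7⟩ := hX2
    let M : Set G := A ∩ A2 ∩ A3 ∩ A4
    have hM : M ∈ 𝓝 (0 : G) := inter_mem (inter_mem (inter_mem hA hA2) hA3) hA4
    have hM' : -M ∈ 𝓝 (0 : G) := by
      have := neg_mem_nhds_zero G hM
      exact this
    refine ⟨M ∩ -M, inter_mem hM hM', ⟨mem_of_mem_nhds hM, mem_of_mem_nhds hM'⟩, ?_, ?_⟩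
    · rintro x ⟨hx, hx'⟩
      exact ⟨hx', by simpa using hx⟩
    · intro a ha c hc d hd e he
      exact h5 (Set.mk_mem_prod ha.1.1.1.1 (h6 (Set.mk_mem_prod hc.1.1.1.2
        (h7 (Set.mk_mem_prod hd.1.1.2 he.1.2)))))
  exact ⟨N, hN, h2, h3⟩

variable {G Y B : Type*} [AddCommGroup G] [UniformSpace G] [IsUniformAddGroup G] [T2Space G]
  [CompleteSpace G] [AddCommGroup B] [TopologicalSpace B] [IsTopologicalAddGroup B] [T2Space B]
  [CompactSpace B] [AddCommGroup Y]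

omit [T2Space G] [CompleteSpace G] [IsTopologicalAddGroup B] [T2Space B] [CompactSpace B] in
theorem W_mem_nhds [TopologicalSpace Y] {V : Set G} (hV : V ∈ 𝓝 (0 : G)) (b : G →+ B)
    (hb : Continuous b) (p : G →+ Y) (hp : Continuous p) {S : Set Y} (hS : S ∈ 𝓝 (0 : Y)) (k : ℕ)
    {D : Set B} (hD : D ∈ 𝓝 (0 : B)) : W V b p S k D ∈ 𝓝 (0 : G) := by
  have h1 : ∀ j : ℕ, {x : G | j • x ∈ V ∧ b (j • x) ∈ D ∧ p (j • x) ∈ S} ∈ 𝓝 (0 : G) := by
    intro j
    have hj : Continuous fun x : G => j • x := continuous_const_smul j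
    have e1 : {x : G | j • x ∈ V} ∈ 𝓝 (0 : G) :=
      hj.continuousAt.preimage_mem_nhds (by simpa using hV)
    have e2 : {x : G | b (j • x) ∈ D} ∈ 𝓝 (0 : G) :=
      (hb.comp hj).continuousAt.preimage_mem_nhds (by simpa using hD)
    have e3 : {x : G | p (j • x) ∈ S} ∈ 𝓝 (0 : G) :=
      (hp.comp hj).continuousAt.preimage_mem_nhds (by simpa using hS)
    exact inter_mem e1 (inter_mem e2 e3)
  have h2 : W V b p S k D =
      ⋂ j ∈ Finset.range (k + 1), {x : G | j • x ∈ V ∧ b (j • x) ∈ D ∧ p (j • x) ∈ S} := by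
    ext x
    simp only [W, Set.mem_ofPred_eq, Finset.mem_range, Set.mem_iInter, Nat.lt_succ_iff]
  rw [h2]
  exact (Filter.biInter_finset_mem _).2 fun j _ => h1 j

omit [T2Space G] [T2Space B] in
/-- the last step of the proof: ultrafilters -/
theorem ultra_step (p : G →+ Y) (τ : TopologicalSpace Y)
    (hp : ∀ g, map p (𝓝 g) ≤ @nhds Y τ (p g)) (hK : IsCompact (p.ker : Set G)) (b : G →+ B)
    {N2 N3 V3 : Set G} (hN3 : N3 ∈ 𝓝 (0 : G))
    (R5 : ∀ a ∈ V3, ∀ c ∈ V3, ∀ u ∈ N3, ∀ u' ∈ N3, (a - c) + (u - u') ∈ N2)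
    (σ : TopologicalSpace Y) (hσ : @IsTopologicalAddGroup Y σ _)
    (hσT : @T2Space Y σ) (hle : τ ≤ σ) (hσV : p '' V3 ∈ @nhds Y σ 0)
    (hsub : ∀ O ∈ 𝓝 (0 : G), ∃ S ∈ @nhds Y σ 0, ∃ k, ∃ D ∈ 𝓝 (0 : B),
      W N2 b p S k D ⊆ O) (F : Ultrafilter Y) (hF : ↑F ≤ @nhds Y σ 0) :
    ↑F ≤ @nhds Y τ 0 := by
  let P : ℕ → Set Y := fun j => {y | j • y ∈ p '' V3}
  have hcont : ∀ j : ℕ, @Continuous Y Y σ σ fun y => j • y := by
    intro j
    exact @continuous_const_smul ℕ Y σ _ (@AddMonoid.continuousConstSMul_nat Y _ σ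
      (@IsTopologicalAddGroup.toContinuousAdd Y σ _ hσ)) j
  have hpre : ∀ (j : ℕ) {S : Set Y}, S ∈ @nhds Y σ 0 → {y | j • y ∈ S} ∈ F := by
    intro j S hS
    apply hF
    have := (@Continuous.tendsto _ _ σ σ _ (hcont j) 0)
    simp only [smul_zero] at this
    exact this hS
  have hP : ∀ j, P j ∈ F := fun j => hpre j hσV
  have hex : ∀ (j : ℕ) (y : Y), ∃ v : G, y ∈ P j → v ∈ V3 ∧ p v = j • y := by
    intro j y
    by_cases hy : y ∈ P j
    · obtain ⟨v, hv, hv'⟩ := hy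
      exact ⟨v, fun _ => ⟨hv, hv'⟩⟩
    · exact ⟨0, fun h => absurd h hy⟩
  choose v hv using hex
  let x : Y → G := v 1
  have hx : ∀ y ∈ P 1, p (x y) = y := by
    intro y hy
    have := (hv 1 y hy).2
    rwa [one_smul] at this
  have hxj : ∀ y ∈ P 1, ∀ j : ℕ, p (j • x y) = j • y := by
    intro y hy j
    rw [map_nsmul, hx y hy]
  let κ : ℕ → Y → G := fun j y => j • x y - v j y
  have hκK : ∀ j, ∀ y ∈ P 1 ∩ P j, κ j y ∈ p.ker := by
    intro j y hy
    rw [AddMonoidHom.mem_ker]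
    simp only [κ]
    rw [map_sub, hxj y hy.1 j, (hv j y hy.2).2, sub_self]
  have hlim : ∀ j, ∃ c : G, Tendsto (κ j) F (𝓝 c) := by
    intro j
    have h1 : (p.ker : Set G) ∈ F.map (κ j) := by
      rw [Ultrafilter.mem_map]
      filter_upwards [hP 1, hP j] with y hy1 hyj
      exact hκK j y ⟨hy1, hyj⟩
    obtain ⟨c, -, hc⟩ := hK.ultrafilter_le_nhds (F.map (κ j)) (by
      rw [le_principal_iff]; exact h1)
    exact ⟨c, hc⟩
  choose c hc using hlim
  obtain ⟨β, -, hβ⟩ := isCompact_univ.ultrafilter_le_nhds (F.map fun y => b (x y))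
    (by simp)
  have hβ' : Tendsto (fun y => b (x y)) F (𝓝 β) := hβ
  have hCau : Cauchy (map x (F : Filter Y)) := by
    refine cauchy_of_sub fun O hO => ?_
    obtain ⟨S, hS, k, D, hD, hSD⟩ := hsub O hO
    obtain ⟨S', hS', hS's, hS'a⟩ := @exists_four _ _ σ hσ _ hS
    obtain ⟨D', hD', hD's, hD'a⟩ := exists_four hD
    have zS' : (0 : Y) ∈ S' := @mem_of_mem_nhds _ σ _ _ hS'
    have zD' := mem_of_mem_nhds hD'
    have hA : ∀ j : ℕ, {y | y ∈ P 1 ∧ y ∈ P j ∧ κ j y - c j ∈ N3 ∧ b (j • x y) - j • β ∈ D' ∧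
        j • y ∈ S'} ∈ F := by
      intro j
      have e1 : {y | κ j y - c j ∈ N3} ∈ F := by
        have : Tendsto (fun y => κ j y - c j) F (𝓝 0) := by
          have := (hc j).sub_const (c j)
          rwa [sub_self] at this
        exact this hN3
      have e2 : {y | b (j • x y) - j • β ∈ D'} ∈ F := by
        have : Tendsto (fun y => b (j • x y) - j • β) F (𝓝 0) := by
          have h3 : Tendsto (fun y => j • b (x y)) F (𝓝 (j • β)) := hβ'.const_smul j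
          have := h3.sub_const (j • β)
          rw [sub_self] at this
          simpa [map_nsmul] using this
        exact this hD'
      filter_upwards [hP 1, hP j, e1, e2, hpre j hS'] with y a1 a2 a3 a4 a5
      exact ⟨a1, a2, a3, a4, a5⟩
    let A : Set Y := ⋂ j ∈ Finset.range (k + 1), {y | y ∈ P 1 ∧ y ∈ P j ∧
      κ j y - c j ∈ N3 ∧ b (j • x y) - j • β ∈ D' ∧ j • y ∈ S'}
    have hAF : A ∈ (F : Filter Y) := (Filter.biInter_finset_mem _).2 fun j _ => hA j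
    refine ⟨x '' A, image_mem_map hAF, ?_⟩
    rintro _ ⟨y, hy, rfl⟩ _ ⟨y', hy', rfl⟩
    apply hSD
    intro j hj
    have hj' : j ∈ Finset.range (k + 1) := by rw [Finset.mem_range]; omega
    obtain ⟨a1, a2, a3, a4, a5⟩ := Set.mem_iInter₂.1 hy j hj'
    obtain ⟨a1', a2', a3', a4', a5'⟩ := Set.mem_iInter₂.1 hy' j hj'
    refine ⟨?_, ?_, ?_⟩
    · have e : j • (x y' - x y) = (v j y' - v j y) + ((κ j y' - c j) - (κ j y - c j)) := by
        simp only [κ, smul_sub]; abel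
      rw [e]
      exact R5 _ (hv j y' a2').1 _ (hv j y a2).1 _ a3' _ a3
    · have e : b (j • (x y' - x y)) = (b (j • x y') - j • β) + -(b (j • x y) - j • β) + 0 + 0 := by
        rw [smul_sub, map_sub]; abel
      rw [e]
      exact hD'a _ a4' _ (hD's _ a4) 0 zD' 0 zD'
    · have e : p (j • (x y' - x y)) = j • y' + -(j • y) + 0 + 0 := by
        rw [smul_sub, map_sub, hxj y' a1' j, hxj y a1 j]; abel
      rw [e]
      exact hS'a _ a5' _ (hS's _ a5) 0 zS' 0 zS'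
  obtain ⟨g, hg⟩ := CompleteSpace.complete hCau
  have h1 : ↑F ≤ @nhds Y τ (p g) := by
    have h2 : map p (map x (F : Filter Y)) = F := by
      rw [map_map]
      have : (p ∘ x) =ᶠ[(F : Filter Y)] id := by
        filter_upwards [hP 1] with y hy
        exact hx y hy
      rw [map_congr this, map_id]
    rw [← h2]
    exact (map_mono hg).trans (hp g)
  have h2 : ↑F ≤ @nhds Y σ (p g) := h1.trans ((le_iff_nhds _ _).1 hle _)
  have h3 : p g = 0 := @tendsto_nhds_unique Y Y σ hσT id (F : Filter Y) (p g) 0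
    F.neBot (by rwa [tendsto_id']) (by rwa [tendsto_id'])
  rw [h3] at h1
  exact h1

/-- **Main theorem**, for an open continuous surjection `p` with compact kernel and a continuous
homomorphism `b` into a compact group. -/
theorem locallyMinimal_of_open [TopologicalSpace Y] [IsTopologicalAddGroup Y]
    (hG : LocallyMinimal G) (p : G →+ Y) (hpc : Continuous p) (hpo : IsOpenMap p)
    (hK : IsCompact (p.ker : Set G)) (b : G →+ B) (hb : Continuous b)
    (hN : ∃ U ∈ 𝓝 (0 : G), ∀ x, p x = 0 → b x = 0 → (∀ j : ℕ, j • x ∈ U) → x = 0) :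
    LocallyMinimal Y := by
  obtain ⟨V, hV, hmin⟩ := hG
  obtain ⟨UN, hUN, hN⟩ := hN
  -- the neighbourhoods
  obtain ⟨C, hC, hCcl, hCU⟩ := exists_mem_nhds_isClosed_subset hUN
  obtain ⟨N2, hN2, hN2s, hN2C⟩ := exists_four (inter_mem hC hV)
  have z2 : (0 : G) ∈ N2 := mem_of_mem_nhds hN2
  have sub2 : N2 ⊆ C ∩ V := fun x hx => by
    have := hN2C x hx 0 z2 0 z2 0 z2
    simpa using this
  obtain ⟨N3, hN3, hN3s, hN3N⟩ := exists_four hN2
  have z3 : (0 : G) ∈ N3 := mem_of_mem_nhds hN3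
  have hint : IsOpen (interior N3) := isOpen_interior
  have hint0 : (0 : G) ∈ interior N3 := mem_interior_iff_mem_nhds.2 hN3
  obtain ⟨m, U, hU, D1, hD1, hm⟩ := near_add hK hCcl b hb
    (fun x hx hbx hj => hN x hx hbx fun j => hCU (hj j)) hint hint0
  have hm' : NearSet (p.ker : Set G) C b (interior N3) (m + 1) U D1 = ∅ := by
    rw [Set.eq_empty_iff_forall_notMem] at hm ⊢
    rintro κ ⟨h1, h2, h3, h4, h5⟩
    exact hm κ ⟨h1, fun i hi => h2 i (by omega), fun i j hij => h3 i j (by omega),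
      fun i hi => h4 i (by omega), h5⟩
  obtain ⟨D0, hD0, hD0s, hD0D⟩ := exists_four hD1
  have zD0 : (0 : B) ∈ D0 := mem_of_mem_nhds hD0
  obtain ⟨N4, hN4, hN4s, hN4U⟩ := exists_four hU
  have z4 : (0 : G) ∈ N4 := mem_of_mem_nhds hN4
  have hbD0 : b ⁻¹' D0 ∈ 𝓝 (0 : G) := hb.continuousAt.preimage_mem_nhds (by rwa [map_zero])
  let V3 : Set G := N3 ∩ N4 ∩ b ⁻¹' D0
  have hV3 : V3 ∈ 𝓝 (0 : G) := inter_mem (inter_mem hN3 hN4) hbD0
  -- the relations
  have R1 : ∀ x ∈ N2, ∀ y ∈ N2, ∀ v ∈ V3, x + y - v ∈ C := by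
    intro x hx y hy v hv
    have h1 : -v ∈ N2 := by
      have := hN3N (-v) (hN3s v hv.1.1) 0 z3 0 z3 0 z3
      simpa using this
    have := (hN2C x hx y hy (-v) h1 0 z2).1
    rwa [add_zero, ← sub_eq_add_neg] at this
  have R2 : ∀ v ∈ V3, ∀ u ∈ interior N3, v + u ∈ N2 := by
    intro v hv u hu
    have := hN3N v hv.1.1 u (interior_subset hu) 0 z3 0 z3
    simpa using this
  have R3 : ∀ a ∈ V3, ∀ c ∈ V3, ∀ d ∈ V3, a + c - d ∈ U := by
    intro a ha c hc d hd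
    have := hN4U a ha.1.2 c hc.1.2 (-d) (hN4s d hd.1.2) 0 z4
    rwa [add_zero, ← sub_eq_add_neg] at this
  have R4 : ∀ d ∈ D0, ∀ v ∈ V3, d - b v ∈ D1 := by
    intro d hd v hv
    have := hD0D d hd (-b v) (hD0s _ hv.2) 0 zD0 0 zD0
    simpa [sub_eq_add_neg] using this
  have hpn : ∀ g, map p (𝓝 g) ≤ 𝓝 (p g) := fun g => hpc.continuousAt
  have hWn : ∀ {S : Set Y} {k : ℕ} {D : Set B}, S ∈ 𝓝 (0 : Y) → D ∈ 𝓝 (0 : B) →
      W N2 b p S k D ∈ 𝓝 (0 : G) := fun hS hD => W_mem_nhds hN2 b hb p hpc hS _ hD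
  have hpV3 : p '' V3 ∈ 𝓝 (0 : Y) := by
    have := hpo.image_mem_nhds hV3
    rwa [map_zero] at this
  refine ⟨p '' V3, hpV3, ?_⟩
  intro σ hσ hσT hle hσV
  -- the topology on `G`
  let ι := {q : Set Y × ℕ × Set B // q.1 ∈ @nhds Y σ 0 ∧ q.2.2 ∈ 𝓝 (0 : B)}
  let w : ι → Set G := fun q => W N2 b p q.1.1 q.1.2.1 q.1.2.2
  have hne : Nonempty ι := ⟨⟨(Set.univ, 0, Set.univ), univ_mem, univ_mem⟩⟩
  have hσ0 : ∀ {S : Set Y}, S ∈ @nhds Y σ 0 → (0 : Y) ∈ S := by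
    intro S hS
    exact @mem_of_mem_nhds _ σ _ _ hS
  have hσ4 : ∀ {S : Set Y}, S ∈ @nhds Y σ 0 → ∃ S' ∈ @nhds Y σ 0,
      (∀ x ∈ S', -x ∈ S') ∧ ∀ a ∈ S', ∀ c ∈ S', ∀ d ∈ S', ∀ e ∈ S', a + c + d + e ∈ S := by
    intro S hS
    exact @exists_four _ _ σ hσ _ hS
  obtain ⟨σ', hσ', hbas⟩ := exists_topology w
    (by
      rintro ⟨⟨S, k, D⟩, hS, hD⟩ j -
      refine ⟨by simpa using z2, by simpa using mem_of_mem_nhds hD, ?_⟩
      rw [smul_zero, map_zero]
      exact hσ0 hS)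
    (by
      rintro ⟨⟨S, k, D⟩, hS, hD⟩ ⟨⟨S', k', D'⟩, hS', hD'⟩
      refine ⟨⟨(S ∩ S', max k k', D ∩ D'), inter_mem hS hS', inter_mem hD hD'⟩, ?_⟩
      intro x hx
      refine ⟨fun j hj => ?_, fun j hj => ?_⟩
      · obtain ⟨a1, a2, a3⟩ := hx j (le_trans hj (le_max_left _ _))
        exact ⟨a1, a2.1, a3.1⟩
      · obtain ⟨a1, a2, a3⟩ := hx j (le_trans hj (le_max_right _ _))
        exact ⟨a1, a2.2, a3.2⟩)
    (by
      rintro ⟨⟨S, k, D⟩, hS, hD⟩
      obtain ⟨S', hS', -, hS'a⟩ := hσ4 (inter_mem hS hσV)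
      obtain ⟨D', hD', -, hD'a⟩ := exists_four (inter_mem hD hD0)
      have zS' := hσ0 hS'
      have zD' := mem_of_mem_nhds hD'
      refine ⟨⟨(S', (m + 1) * k, D'), hS', hD'⟩, ?_⟩
      intro x hx y hy
      have hk : k ≤ (m + 1) * k := Nat.le_mul_of_pos_left k (by omega)
      have hbD : ∀ i ≤ (m + 1) * k, b (i • (x + y)) ∈ D ∩ D0 := by
        intro i hi
        have := hD'a _ (hx i hi).2.1 _ (hy i hi).2.1 0 zD' 0 zD'
        rw [smul_add, map_add]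
        simpa using this
      have hpS : ∀ i ≤ (m + 1) * k, p (i • (x + y)) ∈ S ∩ p '' V3 := by
        intro i hi
        have := hS'a _ (hx i hi).2.2 _ (hy i hi).2.2 0 zS' 0 zS'
        rw [smul_add, map_add]
        simpa using this
      have hkey := key b p hm' (by omega) R1 R2 R3 R4 (k := k) (fun i hi => (hx i hi).1)
        (fun i hi => (hy i hi).1) (fun i hi => (hbD i hi).2) (fun i hi => (hpS i hi).2)
      intro j hj
      exact ⟨hkey j hj, (hbD j (le_trans hj hk)).1, (hpS j (le_trans hj hk)).1⟩)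
    (by
      rintro ⟨⟨S, k, D⟩, hS, hD⟩
      obtain ⟨S', hS', hS's, hS'a⟩ := hσ4 hS
      obtain ⟨D', hD', hD's, hD'a⟩ := exists_four hD
      have zS' := hσ0 hS'
      have zD' := mem_of_mem_nhds hD'
      refine ⟨⟨(S', k, D'), hS', hD'⟩, ?_⟩
      intro x hx j hj
      obtain ⟨a1, a2, a3⟩ := hx j hj
      refine ⟨?_, ?_, ?_⟩
      · rw [smul_neg]; exact hN2s _ a1
      · rw [smul_neg, map_neg]
        have := hD'a _ (hD's _ a2) 0 zD' 0 zD' 0 zD'
        simpa using this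
      · rw [smul_neg, map_neg]
        have := hS'a _ (hS's _ a3) 0 zS' 0 zS' 0 zS'
        simpa using this)
  have hw : ∀ {S : Set Y} {k : ℕ} {D : Set B}, S ∈ @nhds Y σ 0 → D ∈ 𝓝 (0 : B) →
      W N2 b p S k D ∈ @nhds G σ' 0 := by
    intro S k D hS hD
    exact hbas.mem_of_mem (i := ⟨(S, k, D), hS, hD⟩) trivial
  have hT2 : @T2Space G σ' := by
    refine @IsTopologicalAddGroup.t2Space_of_zero_sep G σ' _ hσ' ?_
    intro x hx
    by_contra hcon
    push Not at hcon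
    apply hx
    have hx' : ∀ {S : Set Y} {k : ℕ} {D : Set B}, S ∈ @nhds Y σ 0 →
        D ∈ 𝓝 (0 : B) → x ∈ W N2 b p S k D := fun hS hD => hcon _ (hw hS hD)
    have hxK : p x = 0 := by
      by_contra hxK
      have hS : ({p x}ᶜ : Set Y) ∈ @nhds Y σ 0 :=
        @compl_singleton_mem_nhds _ σ (@T2Space.t1Space _ σ hσT) _ _ (Ne.symm hxK)
      have := (hx' (k := 1) hS univ_mem 1 le_rfl).2.2
      rw [one_smul] at this
      exact this rfl
    have hbx : b x = 0 := by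
      by_contra hbx
      have hD : ({b x}ᶜ : Set B) ∈ 𝓝 (0 : B) := compl_singleton_mem_nhds (Ne.symm hbx)
      have := (hx' (k := 1) (univ_mem (f := @nhds Y σ 0)) hD 1 le_rfl).2.1
      rw [one_smul] at this
      exact this rfl
    refine hN x hxK hbx fun j => ?_
    exact hCU (sub2 (hx' (k := j) (univ_mem (f := @nhds Y σ 0)) univ_mem j le_rfl).1).1
  have hcoarse : UniformSpace.toTopologicalSpace ≤ σ' := by
    refine le_of_nhds inferInstance hσ' ?_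
    intro O hO
    obtain ⟨⟨⟨S, k, D⟩, hS, hD⟩, -, hO⟩ := hbas.mem_iff.1 hO
    refine mem_of_superset ?_ hO
    exact hWn ((le_iff_nhds _ _).1 hle 0 hS) hD
  have hVσ' : V ∈ @nhds G σ' 0 := by
    refine mem_of_superset (hw (k := 1) (univ_mem (f := @nhds Y σ 0))
      (univ_mem (f := 𝓝 (0 : B)))) ?_
    intro x hx
    have := (hx 1 le_rfl).1
    rw [one_smul] at this
    exact (sub2 this).2
  have heq : σ' = UniformSpace.toTopologicalSpace := hmin σ' hσ' hT2 hcoarse hVσ'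
  refine eq_of_ultrafilter inferInstance hσ hle fun F hF => ?_
  refine ultra_step p _ hpn hK b (N2 := N2) (N3 := N3) (V3 := V3) hN3 ?_ σ hσ hσT hle hσV ?_ F hF
  · intro a ha c hc u hu u' hu'
    have := hN3N a ha.1.1 (-c) (hN3s c hc.1.1) u hu (-u') (hN3s u' hu')
    have e : a + -c + u + -u' = a - c + (u - u') := by abel
    rwa [e] at this
  · intro O hO
    rw [← heq] at hO
    obtain ⟨⟨⟨S, k, D⟩, hS, hD⟩, -, hO⟩ := hbas.mem_iff.1 hO
    exact ⟨S, hS, k, D, hD, hO⟩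

end LocMin
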