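import Mathlib
import Pool.Agent.Lib.MP_27feec_al.Main

/-!
# Quotients of complete groups by compact subgroups are complete; the relative theorem
-/

namespace LocMin

open Topology Filter

section cauchy

variable {G : Type*} [AddCommGroup G] [UniformSpace G] [IsUniformAddGroup G]

theorem sub_of_cauchy {F : Filter G} (h : Cauchy F) {O : Set G} (hO : O ∈ 𝓝 (0 : G)) :
    ∃ A ∈ F, ∀ x ∈ A, ∀ y ∈ A, y - x ∈ O := by
  rw [cauchy_iff] at h
  have hs : {p : G × G | p.2 - p.1 ∈ O} ∈ uniformity G := by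
    rw [uniformity_eq_comap_nhds_zero G]
    exact ⟨O, hO, fun p hp => hp⟩
  obtain ⟨A, hA, h2⟩ := h.2 _ hs
  exact ⟨A, hA, fun x hx y hy => h2 (Set.mk_mem_prod hx hy)⟩

variable [CompleteSpace G]

theorem complete_quotient (L : AddSubgroup G) (hL : IsCompact (L : Set G)) :
    @CompleteSpace (G ⧸ L) (IsTopologicalAddGroup.rightUniformSpace (G ⧸ L)) := by
  let := IsTopologicalAddGroup.rightUniformSpace (G ⧸ L)
  have : IsUniformAddGroup (G ⧸ L) := isUniformAddGroup_of_addCommGroup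
  rw [completeSpace_iff_ultrafilter]
  intro F hF
  let s : G ⧸ L → G := Quotient.out
  have hs : ∀ y, (QuotientAddGroup.mk (s y) : G ⧸ L) = y := fun y => QuotientAddGroup.out_eq' y
  have hCau : Cauchy (map s (F : Filter (G ⧸ L))) := by
    refine cauchy_of_sub fun O hO => ?_
    obtain ⟨N, hN, hNs, hNa⟩ := exists_four hO
    have hpN : (QuotientAddGroup.mk : G → G ⧸ L) '' N ∈ 𝓝 (0 : G ⧸ L) :=
      QuotientAddGroup.isOpenMap_coe.image_mem_nhds hN (f := (QuotientAddGroup.mk : G → G ⧸ L))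
    obtain ⟨A, hA, hA'⟩ := sub_of_cauchy hF hpN
    obtain ⟨a, ha⟩ := F.nonempty_of_mem hA
    obtain ⟨t, -, htc⟩ := hL.elim_nhds_subcover (fun l => {x | x - l ∈ N}) (fun l _ => by
      have hc : Continuous fun y : G => y - l := by fun_prop
      exact hc.continuousAt.preimage_mem_nhds (by simpa using hN))
    have hcov : A ⊆ ⋃ l ∈ t, {y | ∃ n ∈ N, ∃ n' ∈ N, s y = s a + l + n + n'} := by
      intro y hy
      obtain ⟨n, hn, hn'⟩ := hA' a ha y hy
      have h1 : (QuotientAddGroup.mk n : G ⧸ L) = QuotientAddGroup.mk (s y - s a) := by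
        rw [hn', QuotientAddGroup.mk_sub, hs, hs]
      have h2 : -n + (s y - s a) ∈ L := QuotientAddGroup.eq.1 h1
      obtain ⟨l, hl, hl'⟩ := Set.mem_iUnion₂.1 (htc h2)
      refine Set.mem_iUnion₂.2 ⟨l, hl, n, hn, _, hl', ?_⟩
      abel
    have hmem := mem_of_superset hA hcov
    have hmem' := (Ultrafilter.finite_biUnion_mem_iff t.finite_toSet).1 hmem
    obtain ⟨l, -, hl⟩ := hmem'
    refine ⟨s '' {y | ∃ n ∈ N, ∃ n' ∈ N, s y = s a + l + n + n'}, image_mem_map hl, ?_⟩
    rintro _ ⟨y, ⟨n, hn, n', hn', hy⟩, rfl⟩ _ ⟨z, ⟨m, hm, m', hm', hz⟩, rfl⟩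
    have e : s z - s y = m + m' + -n + -n' := by rw [hy, hz]; abel
    rw [e]
    exact hNa m hm m' hm' _ (hNs n hn) _ (hNs n' hn')
  obtain ⟨g, hg⟩ := CompleteSpace.complete hCau
  refine ⟨QuotientAddGroup.mk g, ?_⟩
  have h2 : map (QuotientAddGroup.mk : G → G ⧸ L) (map s (F : Filter (G ⧸ L))) = F := by
    rw [map_map]
    have : (QuotientAddGroup.mk : G → G ⧸ L) ∘ s = id := funext hs
    rw [this, map_id]
  rw [← h2]
  exact (map_mono hg).trans (QuotientAddGroup.continuous_mk (N := L)).continuousAt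

end cauchy

end LocMin
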