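import Mathlib
import Pool.Agent.Lib.MP_27feec_al.Main

/-!
# Complete locally minimal groups whose von Neumann radical has no small subgroups are feathered
-/

namespace LocMin

open Topology Filter

theorem metrizable_of_countable {Y : Type*} [AddCommGroup Y] [TopologicalSpace Y]
    [IsTopologicalAddGroup Y] [T2Space Y] (h : (𝓝 (0 : Y)).IsCountablyGenerated) :
    TopologicalSpace.MetrizableSpace Y := by
  let := IsTopologicalAddGroup.rightUniformSpace Y
  have : IsUniformAddGroup Y := isUniformAddGroup_of_addCommGroup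
  have : (uniformity Y).IsCountablyGenerated := IsUniformAddGroup.uniformity_countably_generated
  exact UniformSpace.metrizableSpace

variable {G B : Type*} [AddCommGroup G] [UniformSpace G] [IsUniformAddGroup G] [T2Space G]
  [CompleteSpace G] [AddCommGroup B] [TopologicalSpace B] [IsTopologicalAddGroup B] [T2Space B]
  [CompactSpace B]

omit [T2Space G] in
theorem feathered (hG : LocallyMinimal G) (b : G →+ B) (hb : Continuous b)
    (hN : ∃ U ∈ 𝓝 (0 : G), ∀ x, b x = 0 → (∀ j : ℕ, j • x ∈ U) → x = 0) :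
    ∃ K : AddSubgroup G, IsCompact (K : Set G) ∧ TopologicalSpace.MetrizableSpace (G ⧸ K) := by
  obtain ⟨V, hV, hmin⟩ := hG
  obtain ⟨U, hU, hN⟩ := hN
  -- the sequence of neighbourhoods
  let ι := {M : Set G // M ∈ 𝓝 (0 : G) ∧ ∀ x ∈ M, -x ∈ M}
  have hstep : ∀ M : ι, ∃ N : ι, ∀ a ∈ N.1, ∀ c ∈ N.1, ∀ d ∈ N.1, ∀ e ∈ N.1,
      a + c + d + e ∈ M.1 := by
    intro M
    obtain ⟨N, h1, h2, h3⟩ := exists_four M.2.1
    exact ⟨⟨N, h1, h2⟩, h3⟩
  choose nx hnx using hstep
  obtain ⟨N0, hN0, hN0s, hN0a⟩ := exists_four (inter_mem hV hU)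
  let M : ℕ → ι := fun n => Nat.rec ⟨N0, hN0, hN0s⟩ (fun _ x => nx x) n
  have hM : ∀ n, ∀ a ∈ (M (n + 1)).1, ∀ c ∈ (M (n + 1)).1, ∀ d ∈ (M (n + 1)).1,
      ∀ e ∈ (M (n + 1)).1, a + c + d + e ∈ (M n).1 := fun n => hnx (M n)
  have zM : ∀ n, (0 : G) ∈ (M n).1 := fun n => mem_of_mem_nhds (M n).2.1
  have hM2 : ∀ n, ∀ a ∈ (M (n + 1)).1, ∀ c ∈ (M (n + 1)).1, a + c ∈ (M n).1 := by
    intro n a ha c hc
    have := hM n a ha c hc 0 (zM (n + 1)) 0 (zM (n + 1))
    simpa using this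
  have hsub : ∀ n, (M (n + 1)).1 ⊆ (M n).1 := by
    intro n a ha
    have := hM2 n a ha 0 (zM (n + 1))
    simpa using this
  have hanti : Antitone fun n => (M n).1 := antitone_nat_of_succ_le hsub
  have hM0 : (M 0).1 ⊆ V ∩ U := by
    intro a ha
    have := hN0a a ha 0 (zM 0) 0 (zM 0) 0 (zM 0)
    simpa using this
  let K : AddSubgroup G :=
    { carrier := {x | ∀ n, x ∈ (M n).1}
      zero_mem' := zM
      add_mem' := fun {a c} ha hc n => hM2 n a (ha (n + 1)) c (hc (n + 1))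
      neg_mem' := fun {a} ha n => (M n).2.2 a (ha n) }
  have hKmem : ∀ x, x ∈ K ↔ ∀ n, x ∈ (M n).1 := fun x => Iff.rfl
  have hKcl : IsClosed (K : Set G) := by
    rw [← closure_subset_iff_isClosed]
    intro x hx n
    have h1 : {y : G | x - y ∈ (M (n + 1)).1} ∈ 𝓝 x := by
      have hc : Continuous fun y : G => x - y := by fun_prop
      exact hc.continuousAt.preimage_mem_nhds (by simpa using (M (n + 1)).2.1)
    obtain ⟨a, ha1, ha2⟩ := mem_closure_iff_nhds.1 hx _ h1
    have := hM2 n _ ha1 a (ha2 (n + 1))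
    simpa using this
  have hpb : ∀ D ∈ 𝓝 (0 : B), b ⁻¹' D ∈ 𝓝 (0 : G) := fun D hD =>
    hb.continuousAt.preimage_mem_nhds (by simpa using hD)
  have hbase : ∀ O ∈ 𝓝 (0 : G), ∃ n, ∃ D ∈ 𝓝 (0 : B), (M n).1 ∩ b ⁻¹' D ⊆ O := by
    intro O hO
    -- the topology
    let ι' := {p : ℕ × Set B // p.2 ∈ 𝓝 (0 : B)}
    let w : ι' → Set G := fun p => (M p.1.1).1 ∩ b ⁻¹' p.1.2
    have hne : Nonempty ι' := ⟨⟨(0, Set.univ), univ_mem⟩⟩
    obtain ⟨σ', hσ', hbas⟩ := exists_topology w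
      (by
        rintro ⟨⟨n, D⟩, hD⟩
        exact ⟨zM n, by simpa using mem_of_mem_nhds hD⟩)
      (by
        rintro ⟨⟨n, D⟩, hD⟩ ⟨⟨n', D'⟩, hD'⟩
        refine ⟨⟨(max n n', D ∩ D'), inter_mem hD hD'⟩, ?_⟩
        rintro x ⟨hx1, hx2⟩
        exact ⟨⟨hanti (le_max_left _ _) hx1, hx2.1⟩, ⟨hanti (le_max_right _ _) hx1, hx2.2⟩⟩)
      (by
        rintro ⟨⟨n, D⟩, hD⟩
        obtain ⟨D', hD', -, hD'a⟩ := exists_four hD
        have zD' := mem_of_mem_nhds hD'
        refine ⟨⟨(n + 1, D'), hD'⟩, ?_⟩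
        rintro x ⟨hx1, hx2⟩ y ⟨hy1, hy2⟩
        refine ⟨hM2 n x hx1 y hy1, ?_⟩
        have := hD'a _ hx2 _ hy2 0 zD' 0 zD'
        simpa using this)
      (by
        rintro ⟨⟨n, D⟩, hD⟩
        obtain ⟨D', hD', hD's, hD'a⟩ := exists_four hD
        have zD' := mem_of_mem_nhds hD'
        refine ⟨⟨(n, D'), hD'⟩, ?_⟩
        rintro x ⟨hx1, hx2⟩
        refine ⟨(M n).2.2 x hx1, ?_⟩
        have := hD'a _ (hD's _ hx2) 0 zD' 0 zD' 0 zD'
        simpa using this)
    have hw : ∀ (n : ℕ) {D : Set B}, D ∈ 𝓝 (0 : B) → (M n).1 ∩ b ⁻¹' D ∈ @nhds G σ' 0 := by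
      intro n D hD
      exact hbas.mem_of_mem (i := ⟨(n, D), hD⟩) trivial
    have hT2 : @T2Space G σ' := by
      refine @IsTopologicalAddGroup.t2Space_of_zero_sep G σ' _ hσ' ?_
      intro x hx
      by_contra hcon
      push Not at hcon
      apply hx
      have hxK : x ∈ K := fun n => (hcon _ (hw n univ_mem)).1
      have hbx : b x = 0 := by
        by_contra hbx
        have hD : ({b x}ᶜ : Set B) ∈ 𝓝 (0 : B) := compl_singleton_mem_nhds (Ne.symm hbx)
        exact (hcon _ (hw 0 hD)).2 rfl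
      refine hN x hbx fun j => ?_
      exact (hM0 ((K.nsmul_mem hxK j) 0)).2
    have hcoarse : UniformSpace.toTopologicalSpace ≤ σ' := by
      refine le_of_nhds inferInstance hσ' ?_
      intro O hO
      obtain ⟨⟨⟨n, D⟩, hD⟩, -, hO⟩ := hbas.mem_iff.1 hO
      refine mem_of_superset ?_ hO
      exact inter_mem (M n).2.1 (hpb D hD)
    have hVσ' : V ∈ @nhds G σ' 0 :=
      mem_of_superset (hw 0 (univ_mem (f := 𝓝 (0 : B)))) fun x hx => (hM0 hx.1).1
    have heq : σ' = UniformSpace.toTopologicalSpace := hmin σ' hσ' hT2 hcoarse hVσ'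
    rw [← heq] at hO
    obtain ⟨⟨⟨n, D⟩, hD⟩, -, hO⟩ := hbas.mem_iff.1 hO
    exact ⟨n, D, hD, hO⟩
  -- ultrafilters which are eventually close modulo all `M n` converge
  have hconv : ∀ F : Ultrafilter G, (∀ n, ∃ A ∈ F, ∀ x ∈ A, ∀ y ∈ A, y - x ∈ (M n).1) →
      ∃ g, (F : Filter G) ≤ 𝓝 g := by
    intro F hF
    obtain ⟨β, -, hβ⟩ := isCompact_univ.ultrafilter_le_nhds (F.map b) (by simp)
    have hβ' : Tendsto b F (𝓝 β) := hβ
    have hCau : Cauchy (F : Filter G) := by
      refine cauchy_of_sub fun O hO => ?_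
      obtain ⟨n, D, hD, hnD⟩ := hbase O hO
      obtain ⟨D', hD', hD's, hD'a⟩ := exists_four hD
      have zD' := mem_of_mem_nhds hD'
      obtain ⟨A, hA, hA'⟩ := hF n
      have e2 : {x | b x - β ∈ D'} ∈ F := by
        have : Tendsto (fun x => b x - β) F (𝓝 0) := by
          have := hβ'.sub_const β
          rwa [sub_self] at this
        exact this hD'
      refine ⟨A ∩ {x | b x - β ∈ D'}, inter_mem hA e2, ?_⟩
      rintro x ⟨hx1, hx2⟩ y ⟨hy1, hy2⟩
      refine hnD ⟨hA' x hx1 y hy1, ?_⟩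
      have e : b (y - x) = (b y - β) + -(b x - β) + 0 + 0 := by rw [map_sub]; abel
      change b (y - x) ∈ D
      rw [e]
      exact hD'a _ hy2 _ (hD's _ hx2) 0 zD' 0 zD'
    exact CompleteSpace.complete hCau
  have hKc : IsCompact (K : Set G) := by
    rw [isCompact_iff_ultrafilter_le_nhds]
    intro F hF
    have hFK : (K : Set G) ∈ F := le_principal_iff.1 hF
    obtain ⟨g, hg⟩ := hconv F fun n => ⟨K, hFK, fun x hx y hy => (K.sub_mem hy hx) n⟩
    exact ⟨g, hKcl.mem_of_tendsto (f := id) (b := (F : Filter G)) hg hFK, hg⟩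
  refine ⟨K, hKc, ?_⟩
  have : IsClosed (K : Set G) := hKcl
  refine metrizable_of_countable ?_
  -- the images of `M n` form a base at `0`
  have hb0 : (𝓝 (0 : G ⧸ K)).HasBasis (fun _ : ℕ => True)
      fun n => (QuotientAddGroup.mk : G → G ⧸ K) '' (M n).1 := by
    constructor
    intro O
    constructor
    · intro hO
      by_contra hcon
      push Not at hcon
      have hex : ∀ n, ∃ x ∈ (M n).1, (QuotientAddGroup.mk x : G ⧸ K) ∉ O := by
        intro n
        obtain ⟨_, ⟨x, hx, rfl⟩, hx'⟩ := Set.not_subset.1 (hcon n trivial)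
        exact ⟨x, hx, hx'⟩
      choose x hx hxO using hex
      let F : Ultrafilter G := (hyperfilter ℕ).map x
      have hge : ∀ n, {k | n ≤ k} ∈ hyperfilter ℕ := by
        intro n
        refine Nat.hyperfilter_le_atTop ?_
        exact mem_atTop n
      have hMF : ∀ n, x '' {k | n ≤ k} ∈ F := fun n => by
        rw [Ultrafilter.mem_map]
        exact mem_of_superset (hge n) (Set.subset_preimage_image _ _)
      obtain ⟨g, hg⟩ := hconv F fun n => by
        refine ⟨x '' {k | n + 1 ≤ k}, hMF (n + 1), ?_⟩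
        rintro _ ⟨k, hk, rfl⟩ _ ⟨l, hl, rfl⟩
        rw [sub_eq_add_neg]
        exact hM2 n _ (hanti hl (hx l)) _ ((M (n + 1)).2.2 _ (hanti hk (hx k)))
      have hgK : g ∈ K := by
        intro n
        have h1 : {y : G | g - y ∈ (M (n + 1)).1} ∈ 𝓝 g := by
          have hc : Continuous fun y : G => g - y := by fun_prop
          exact hc.continuousAt.preimage_mem_nhds (by simpa using (M (n + 1)).2.1)
        obtain ⟨y, hy1, k, hk, rfl⟩ := F.nonempty_of_mem (inter_mem (hg h1) (hMF (n + 1)))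
        have := hM2 n _ hy1 _ (hanti hk (hx k))
        simpa using this
      have hg0 : (QuotientAddGroup.mk g : G ⧸ K) = 0 := (QuotientAddGroup.eq_zero_iff g).2 hgK
      have h2 : {y : G | (QuotientAddGroup.mk y : G ⧸ K) ∈ O} ∈ 𝓝 g := by
        refine (QuotientAddGroup.continuous_mk (N := K)).continuousAt.preimage_mem_nhds ?_
        rw [hg0]
        exact hO
      obtain ⟨y, hy1, k, -, rfl⟩ := F.nonempty_of_mem (inter_mem (hg h2) (hMF 0))
      exact hxO k hy1
    · rintro ⟨n, -, hn⟩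
      have h1 := QuotientAddGroup.isOpenMap_coe.image_mem_nhds (M n).2.1
        (f := (QuotientAddGroup.mk : G → G ⧸ K))
      exact mem_of_superset h1 hn
  exact HasCountableBasis.isCountablyGenerated ⟨hb0, Set.to_countable _⟩

end LocMin
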