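import Mathlib
import Pool.Agent.Lib.MP_27feec_al.Complete
import Pool.Agent.Lib.MP_27feec_al.Feathered

/-!
# The von Neumann radical and the theorems
-/

namespace LocMin

open Topology Filter

/-- The von Neumann radical: the points at which all continuous characters vanish. -/
def vnRadical (G : Type*) [AddCommGroup G] [TopologicalSpace G] : AddSubgroup G where
  carrier := {x | ∀ χ : G →+ UnitAddCircle, Continuous χ → χ x = 0}
  zero_mem' := fun χ _ => map_zero χ
  add_mem' := fun {a c} ha hc χ hχ => by rw [map_add, ha χ hχ, hc χ hχ, add_zero]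
  neg_mem' := fun {a} ha χ hχ => by rw [map_neg, ha χ hχ, neg_zero]

theorem mem_vnRadical {G : Type*} [AddCommGroup G] [TopologicalSpace G] {x : G} :
    x ∈ vnRadical G ↔ ∀ χ : G →+ UnitAddCircle, Continuous χ → χ x = 0 := Iff.rfl

/-- The subgroup `H` of `G` has no small subgroups: some neighbourhood of `0` contains no
subgroup of `H` except the trivial one. -/
def NoSmallSubgroups {G : Type*} [AddCommGroup G] [TopologicalSpace G] (H : AddSubgroup G) :
    Prop :=
  ∃ U ∈ 𝓝 (0 : G), ∀ L : AddSubgroup G, L ≤ H → (L : Set G) ⊆ U → L = ⊥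

section bohr

variable (G : Type*) [AddCommGroup G] [TopologicalSpace G]

/-- the group in which the Bohr compactification lives -/
abbrev BohrB : Type _ := {χ : G →+ UnitAddCircle // Continuous χ} → UnitAddCircle

/-- the Bohr homomorphism -/
def bohr : G →+ BohrB G := AddMonoidHom.pi fun χ => χ.1

theorem bohr_continuous : Continuous (bohr G) := continuous_pi fun χ => χ.2

variable {G}

theorem bohr_eq_zero {x : G} : bohr G x = 0 ↔ x ∈ vnRadical G := by
  constructor
  · intro h χ hχ
    exact congrFun h ⟨χ, hχ⟩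
  · intro h
    funext χ
    exact h χ.1 χ.2

end bohr

theorem NoSmallSubgroups.point {G : Type*} [AddCommGroup G] [TopologicalSpace G]
    [IsTopologicalAddGroup G] {H : AddSubgroup G} (h : NoSmallSubgroups H) :
    ∃ U ∈ 𝓝 (0 : G), ∀ x ∈ H, (∀ j : ℕ, j • x ∈ U) → x = 0 := by
  obtain ⟨U, hU, h⟩ := h
  have hU' : -U ∈ 𝓝 (0 : G) := neg_mem_nhds_zero G hU
  refine ⟨U ∩ -U, inter_mem hU hU', ?_⟩
  intro x hx hj
  have h1 : AddSubgroup.zmultiples x = ⊥ := by
    refine h _ ?_ ?_
    · rw [AddSubgroup.zmultiples_le]; exact hx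
    · rintro _ ⟨k, rfl⟩
      simp only
      rcases Int.eq_nat_or_neg k with ⟨n, rfl | rfl⟩
      · rw [natCast_zsmul]; exact (hj n).1
      · rw [neg_smul, natCast_zsmul]; exact (hj n).2
  rwa [AddSubgroup.zmultiples_eq_bot] at h1

theorem isClosed_vnRadical {G : Type*} [AddCommGroup G] [TopologicalSpace G] :
    IsClosed (vnRadical G : Set G) := by
  have : (vnRadical G : Set G) = bohr G ⁻¹' {0} := by
    ext x
    exact bohr_eq_zero.symm
  rw [this]
  exact isClosed_singleton.preimage (bohr_continuous G)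

section main

variable {G : Type*} [AddCommGroup G] [UniformSpace G] [IsUniformAddGroup G] [T2Space G]
  [CompleteSpace G]

omit [T2Space G] in
/-- The relative form. -/
theorem quotient_relative (L K : AddSubgroup G) (hLK : L ≤ K) (hL : IsClosed (L : Set G))
    (hK : IsCompact (K : Set G)) (hG : LocallyMinimal (G ⧸ L))
    (h : ∃ U ∈ 𝓝 (0 : G ⧸ L), ∀ x : G ⧸ L, x ∈ K.map (QuotientAddGroup.mk' L) →
      x ∈ vnRadical (G ⧸ L) → (∀ j : ℕ, j • x ∈ U) → x = 0) : LocallyMinimal (G ⧸ K) := by
  have hLc : IsCompact (L : Set G) := hK.of_isClosed_subset hL hLK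
  let := IsTopologicalAddGroup.rightUniformSpace (G ⧸ L)
  have : IsUniformAddGroup (G ⧸ L) := isUniformAddGroup_of_addCommGroup
  have : CompleteSpace (G ⧸ L) := complete_quotient L hLc
  have : IsClosed (L : Set G) := hL
  let p : G ⧸ L →+ G ⧸ K := QuotientAddGroup.map L K (AddMonoidHom.id G) hLK
  have hp : ∀ g : G, p (g : G ⧸ L) = (g : G ⧸ K) := fun g => rfl
  have hpc : Continuous p := by
    refine (QuotientAddGroup.isQuotientMap_mk L).continuous_iff.2 ?_
    exact QuotientAddGroup.continuous_mk (N := K)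
  have hpo : IsOpenMap p := by
    intro U hU
    have h1 : p '' U = (QuotientAddGroup.mk : G → G ⧸ K) ''
        ((QuotientAddGroup.mk : G → G ⧸ L) ⁻¹' U) := by
      ext y
      constructor
      · rintro ⟨x, hx, rfl⟩
        obtain ⟨g, rfl⟩ := QuotientAddGroup.mk_surjective x
        exact ⟨g, hx, rfl⟩
      · rintro ⟨g, hg, rfl⟩
        exact ⟨(g : G ⧸ L), hg, rfl⟩
    rw [h1]
    exact QuotientAddGroup.isOpenMap_coe _
      (hU.preimage (QuotientAddGroup.continuous_mk (N := L)))
  have hker : ∀ x : G ⧸ L, p x = 0 ↔ x ∈ K.map (QuotientAddGroup.mk' L) := by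
    intro x
    obtain ⟨g, rfl⟩ := QuotientAddGroup.mk_surjective x
    rw [hp, QuotientAddGroup.eq_zero_iff]
    constructor
    · intro hg
      exact ⟨g, hg, rfl⟩
    · rintro ⟨k, hk, hk'⟩
      have h1 : -k + g ∈ L := QuotientAddGroup.eq.1 hk'
      have h2 := K.add_mem hk (hLK h1)
      simpa using h2
  have hkerc : IsCompact (p.ker : Set (G ⧸ L)) := by
    have h1 : (p.ker : Set (G ⧸ L)) = (QuotientAddGroup.mk : G → G ⧸ L) '' (K : Set G) := by
      ext x
      rw [SetLike.mem_coe, AddMonoidHom.mem_ker, hker]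
      rfl
    rw [h1]
    exact hK.image (QuotientAddGroup.continuous_mk (N := L))
  obtain ⟨U, hU, h⟩ := h
  exact locallyMinimal_of_open hG p hpc hpo hkerc (bohr (G ⧸ L)) (bohr_continuous _)
    ⟨U, hU, fun x hx hbx hj => h x ((hker x).1 hx) (bohr_eq_zero.1 hbx) hj⟩

/-- The quotient by `K` if `K ∩ n(G)` has no small subgroups. -/
theorem quotient_nss (hG : LocallyMinimal G) (K : AddSubgroup G) (hK : IsCompact (K : Set G))
    (h : NoSmallSubgroups (K ⊓ vnRadical G)) : LocallyMinimal (G ⧸ K) := by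
  obtain ⟨U, hU, h⟩ := h.point
  refine locallyMinimal_of_open hG (QuotientAddGroup.mk' K) QuotientAddGroup.continuous_mk
    QuotientAddGroup.isOpenMap_coe ?_ (bohr G) (bohr_continuous G) ⟨U, hU, ?_⟩
  · rw [QuotientAddGroup.ker_mk']; exact hK
  · intro x hx hbx hj
    exact h x ⟨(QuotientAddGroup.eq_zero_iff x).1 hx, bohr_eq_zero.1 hbx⟩ hj

/-- Reduction to subgroups of the von Neumann radical. -/
theorem quotient_reduction (K : AddSubgroup G) (hK : IsCompact (K : Set G))
    (h : LocallyMinimal (G ⧸ (K ⊓ vnRadical G))) : LocallyMinimal (G ⧸ K) := by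
  have hcl : IsClosed ((K ⊓ vnRadical G : AddSubgroup G) : Set G) :=
    hK.isClosed.inter isClosed_vnRadical
  refine quotient_relative _ K inf_le_left hcl hK h ⟨Set.univ, univ_mem, ?_⟩
  rintro _ ⟨k, hk, rfl⟩ hx -
  rw [QuotientAddGroup.mk'_apply, QuotientAddGroup.eq_zero_iff]
  refine ⟨hk, fun χ hχ => ?_⟩
  let χ' : G ⧸ (K ⊓ vnRadical G) →+ UnitAddCircle :=
    QuotientAddGroup.lift _ χ fun x hx => hx.2 χ hχ
  have hχ' : Continuous χ' :=
    (QuotientAddGroup.isQuotientMap_mk _).continuous_iff.2 hχ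
  exact hx χ' hχ'

omit [T2Space G] in
theorem feathered_nss (hG : LocallyMinimal G) (h : NoSmallSubgroups (vnRadical G)) :
    ∃ K : AddSubgroup G, IsCompact (K : Set G) ∧ TopologicalSpace.MetrizableSpace (G ⧸ K) := by
  obtain ⟨U, hU, h⟩ := h.point
  exact feathered hG (bohr G) (bohr_continuous G)
    ⟨U, hU, fun x hbx hj => h x (bohr_eq_zero.1 hbx) hj⟩

end main

end LocMin
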